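import Pool.Agent.H317.GR.StmB
import Pool.Graph.R_pool_sql_team_seeded_ab47071d.TH610.CSP.Arith
import Pool.Graph.R_pool_sql_team_seeded_ab47071d.TH610.CSP.Three2
import Pool.Graph.R_pool_sql_team_seeded_ab47071d.TH610.CSP.Two
import Pool.Graph.R_pool_sql_team_seeded_ab47071d.TH610.CSP.Red
import Pool.Graph.R_pool_sql_team_seeded_ab47071d.TH610.CSP.Csp

/-!
# Project GR (helper317): EMB, density of the image
-/

set_option autoImplicit false

namespace Pool.Agent.H297.GR

open Matrix Module
open Pool.Agent.H317.GR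

/-- the congruence subgroup property (library) -/
theorem csp' : Pool.Agent.TH610.CSP.StCSP :=
  Pool.Agent.TH610.CSP.t_csp (Pool.Agent.TH610.CSP.t_two
    (Pool.Agent.TH610.CSP.t_three' Pool.Agent.TH610.CSP.t_arith)) Pool.Agent.TH610.CSP.t_red

/-- two homomorphisms with the same kernel, the first onto a finite group `H`: the second is onto -/
theorem surj_of_ker {G H : Type} [Group G] [Group H] [Finite H] (a b : G →* H)
    (ha : Function.Surjective a) (hk : ∀ g, b g = 1 ↔ a g = 1) : Function.Surjective b := by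
  have hker : b.ker = a.ker := by
    ext g
    rw [MonoidHom.mem_ker, MonoidHom.mem_ker]
    exact hk g
  have h1 : Nat.card b.range = Nat.card H := by
    have e1 := Nat.card_congr (QuotientGroup.quotientKerEquivRange b).toEquiv
    have e2 := Nat.card_congr (QuotientGroup.quotientKerEquivOfSurjective a ha).toEquiv
    rw [← e1, ← e2, hker]
  rw [← MonoidHom.range_eq_top]
  exact Subgroup.eq_top_of_card_eq _ h1

/-- **EMB** -/
theorem emb : S_EMB := by
  intro n hn Λ _ f σ hf hσ
  intro Q _ _ f0 g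
  obtain ⟨M, hM, hcong⟩ := csp' n hn f0.ker inferInstance
  haveI : NeZero M := ⟨hM.ne'⟩
  have hsurj : Function.Surjective
      ((SpecialLinearGroup.map (n := Fin n) (Int.castRingHom (ZMod M))).comp σ) :=
    surj_of_ker (f M) _ (hf M hM) (fun g => hσ M hM g)
  obtain ⟨u, hu⟩ := hsurj (SpecialLinearGroup.map (Int.castRingHom (ZMod M)) g)
  rw [MonoidHom.comp_apply] at hu
  refine ⟨σ u, ⟨u, rfl⟩, ?_⟩
  have h1 : SpecialLinearGroup.map (Int.castRingHom (ZMod M)) ((σ u)⁻¹ * g) = 1 := by
    rw [map_mul, map_inv, ← hu, inv_mul_cancel]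
  have h2 : (σ u)⁻¹ * g ∈ f0.ker := by
    refine hcong _ ?_
    intro i j
    have h3 := congrArg (fun A : SpecialLinearGroup (Fin n) (ZMod M) => A.1 i j) h1
    rw [← ZMod.intCast_zmod_eq_zero_iff_dvd, Int.cast_sub, sub_eq_zero]
    have h4 : (SpecialLinearGroup.map (Int.castRingHom (ZMod M)) ((σ u)⁻¹ * g)).1 i j =
        ((((σ u)⁻¹ * g).1 i j : ℤ) : ZMod M) := rfl
    rw [← h4]
    have h5 : (1 : Matrix (Fin n) (Fin n) (ZMod M)) i j =
        (((1 : Matrix (Fin n) (Fin n) ℤ) i j : ℤ) : ZMod M) := by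
      rw [Matrix.one_apply, Matrix.one_apply]
      split_ifs <;> simp
    exact h3.trans h5
  rw [MonoidHom.mem_ker, map_mul, map_inv, inv_mul_eq_one] at h2
  exact h2

end Pool.Agent.H297.GR
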